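import Mathlib

set_option autoImplicit false

namespace Pool.Agent.Results.MP_da5e02_co.Counterexample

open SimpleGraph

section defs
variable {n : ℕ} (G : SimpleGraph (Fin n))

/-- `p` is a `u,v`-detour: a longest path between its ends. -/
def Detour {u v : Fin n} (p : G.Walk u v) : Prop :=
  p.IsPath ∧ ∀ q : G.Walk u v, q.IsPath → q.length ≤ p.length

/-- `S` is a detour position set. -/
def DetourPos (S : Finset (Fin n)) : Prop :=
  ∀ u ∈ S, ∀ v ∈ S, u ≠ v → ∀ p : G.Walk u v, Detour G p →
    ∀ w ∈ S, w ≠ u → w ≠ v → w ∉ p.support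

/-- `D` is the detour diameter: the largest length of a detour. -/
def DetourDiam (D : ℕ) : Prop :=
  IsGreatest {l | ∃ (u v : Fin n) (p : G.Walk u v), Detour G p ∧ p.length = l} D

end defs

def nb (x : Fin 12) : List (Fin 12) := ([[1, 11], [0, 4, 10], [3, 6, 8], [2, 5, 11], [1, 8], [3, 7, 10], [2, 7, 9], [5, 6], [2, 4], [6], [1, 5], [0, 3]] : List (List (Fin 12))).getD x []

def G0 : SimpleGraph (Fin 12) where
  Adj x y := y ∈ nb x
  symm := ⟨by decide +kernel⟩
  loopless := ⟨by decide +kernel⟩

instance : DecidableRel G0.Adj := fun x y => inferInstanceAs (Decidable (y ∈ nb x))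

def go (v w : Fin 12) (l : ℕ) : ℕ → Fin 12 → List (Fin 12) → Bool
  | 0, _, _ => false
  | f + 1, x, vis => if x = v then !(vis.contains w) || decide (vis.length < l)
      else (nb x).all fun y => (x :: vis).contains y || go v w l f y (x :: vis)

lemma go_ok (v w : Fin 12) (l : ℕ) (hw : w ≠ v) : ∀ (f : ℕ) (x : Fin 12) (p : G0.Walk x v)
    (vis : List (Fin 12)), go v w l f x vis = true → p.IsPath → (∀ z ∈ p.support, z ∉ vis) →
    (w ∈ vis ∨ w ∈ p.support) → vis.length + p.length < l := by
  intro f
  induction f with
  | zero => intro x p vis h; simp [go] at h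
  | succ f ih =>
    intro x p vis h hp hd hm
    unfold go at h
    split_ifs at h with hx
    · subst hx
      rw [Walk.isPath_iff_eq_nil] at hp
      subst hp
      simp only [Walk.support_nil, List.mem_singleton, hw, or_false] at hm
      simpa [hm] using h
    · cases p with
      | nil => exact absurd rfl hx
      | cons ha q =>
        rename_i y
        rw [Walk.cons_isPath_iff] at hp
        rw [List.all_eq_true] at h
        have h1 := h y ha
        have h2 : ∀ z ∈ q.support, z ∉ x :: vis := by
          intro z hz hz'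
          rcases List.mem_cons.1 hz' with rfl | hz'
          · exact hp.2 hz
          · exact hd z (by simp [hz]) hz'
        have h3 : (x :: vis).contains y = false := by
          simpa using h2 y q.start_mem_support
        rw [h3, Bool.false_or] at h1
        have := ih y q (x :: vis) h1 hp.1 h2 (by
          simp only [Walk.support_cons, List.mem_cons] at hm ⊢
          tauto)
        simp only [List.length_cons, Walk.length_cons] at this ⊢
        omega

lemma avoid (u v w : Fin 12) (l : ℕ) (h : go v w l 13 u [] = true) (hw : w ≠ v)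
    (q : G0.Walk u v) (hq : q.IsPath) (hl : q.length = l) (p : G0.Walk u v) (hp : Detour G0 p) :
    w ∉ p.support := by
  intro hm
  have h1 := go_ok v w l hw 13 u p [] h hp.1 (by simp) (Or.inr hm)
  have h2 := hp.2 q hq
  simp only [List.length_nil] at h1
  omega

lemma c7_9 (p : G0.Walk 7 9) (h : Detour G0 p) : 10 ∉ p.support :=
  avoid 7 9 10 10 (by decide +kernel) (by decide)
    (Walk.cons (v := 5) (by decide) (Walk.cons (v := 3) (by decide) (Walk.cons (v := 11) (by decide) (Walk.cons (v := 0) (by decide) (Walk.cons (v := 1) (by decide) (Walk.cons (v := 4) (by decide) (Walk.cons (v := 8) (by decide) (Walk.cons (v := 2) (by decide) (Walk.cons (v := 6) (by decide) (Walk.cons (v := 9) (by decide) Walk.nil))))))))))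
    (by rw [Walk.isPath_def]; decide) rfl p h

lemma c7_10 (p : G0.Walk 7 10) (h : Detour G0 p) : 9 ∉ p.support :=
  avoid 7 10 9 10 (by decide +kernel) (by decide)
    (Walk.cons (v := 6) (by decide) (Walk.cons (v := 2) (by decide) (Walk.cons (v := 8) (by decide) (Walk.cons (v := 4) (by decide) (Walk.cons (v := 1) (by decide) (Walk.cons (v := 0) (by decide) (Walk.cons (v := 11) (by decide) (Walk.cons (v := 3) (by decide) (Walk.cons (v := 5) (by decide) (Walk.cons (v := 10) (by decide) Walk.nil))))))))))
    (by rw [Walk.isPath_def]; decide) rfl p h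

lemma c9_7 (p : G0.Walk 9 7) (h : Detour G0 p) : 10 ∉ p.support :=
  avoid 9 7 10 10 (by decide +kernel) (by decide)
    (Walk.cons (v := 6) (by decide) (Walk.cons (v := 2) (by decide) (Walk.cons (v := 8) (by decide) (Walk.cons (v := 4) (by decide) (Walk.cons (v := 1) (by decide) (Walk.cons (v := 0) (by decide) (Walk.cons (v := 11) (by decide) (Walk.cons (v := 3) (by decide) (Walk.cons (v := 5) (by decide) (Walk.cons (v := 7) (by decide) Walk.nil))))))))))
    (by rw [Walk.isPath_def]; decide) rfl p h

lemma c9_10 (p : G0.Walk 9 10) (h : Detour G0 p) : 7 ∉ p.support :=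
  avoid 9 10 7 10 (by decide +kernel) (by decide)
    (Walk.cons (v := 6) (by decide) (Walk.cons (v := 2) (by decide) (Walk.cons (v := 8) (by decide) (Walk.cons (v := 4) (by decide) (Walk.cons (v := 1) (by decide) (Walk.cons (v := 0) (by decide) (Walk.cons (v := 11) (by decide) (Walk.cons (v := 3) (by decide) (Walk.cons (v := 5) (by decide) (Walk.cons (v := 10) (by decide) Walk.nil))))))))))
    (by rw [Walk.isPath_def]; decide) rfl p h

lemma c10_7 (p : G0.Walk 10 7) (h : Detour G0 p) : 9 ∉ p.support :=
  avoid 10 7 9 10 (by decide +kernel) (by decide)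
    (Walk.cons (v := 5) (by decide) (Walk.cons (v := 3) (by decide) (Walk.cons (v := 11) (by decide) (Walk.cons (v := 0) (by decide) (Walk.cons (v := 1) (by decide) (Walk.cons (v := 4) (by decide) (Walk.cons (v := 8) (by decide) (Walk.cons (v := 2) (by decide) (Walk.cons (v := 6) (by decide) (Walk.cons (v := 7) (by decide) Walk.nil))))))))))
    (by rw [Walk.isPath_def]; decide) rfl p h

lemma c10_9 (p : G0.Walk 10 9) (h : Detour G0 p) : 7 ∉ p.support :=
  avoid 10 9 7 10 (by decide +kernel) (by decide)
    (Walk.cons (v := 5) (by decide) (Walk.cons (v := 3) (by decide) (Walk.cons (v := 11) (by decide) (Walk.cons (v := 0) (by decide) (Walk.cons (v := 1) (by decide) (Walk.cons (v := 4) (by decide) (Walk.cons (v := 8) (by decide) (Walk.cons (v := 2) (by decide) (Walk.cons (v := 6) (by decide) (Walk.cons (v := 9) (by decide) Walk.nil))))))))))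
    (by rw [Walk.isPath_def]; decide) rfl p h

def ham : G0.Walk 0 9 :=
  (Walk.cons (v := 11) (by decide) (Walk.cons (v := 3) (by decide) (Walk.cons (v := 2) (by decide) (Walk.cons (v := 8) (by decide) (Walk.cons (v := 4) (by decide) (Walk.cons (v := 1) (by decide) (Walk.cons (v := 10) (by decide) (Walk.cons (v := 5) (by decide) (Walk.cons (v := 7) (by decide) (Walk.cons (v := 6) (by decide) (Walk.cons (v := 9) (by decide) Walk.nil)))))))))))

lemma short {u v : Fin 12} (p : G0.Walk u v) (h : p.IsPath) : p.length ≤ 11 := by
  have := h.length_lt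
  simp only [Fintype.card_fin] at this
  omega

theorem result : ¬ ∀ (n : ℕ) (G : SimpleGraph (Fin n)) (D : ℕ), G.Connected → DetourDiam G D →
    ∀ S : Finset (Fin n), DetourPos G S → (S.card : ℤ) ≤ n - D + 1 := by
  intro h
  have hc : G0.Connected := by
    rw [connected_iff_exists_forall_reachable]
    refine ⟨0, fun w => ⟨ham.takeUntil w ?_⟩⟩
    revert w
    decide +kernel
  have h1 := h 12 G0 11 hc ⟨⟨_, _, ham, ⟨by rw [Walk.isPath_def]; decide +kernel,
    fun q hq => short q hq⟩, rfl⟩, by
      rintro l ⟨u, v, p, hp, rfl⟩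
      exact short p hp.1⟩ {7, 9, 10} (by
    intro u hu v hv huv p hp w hw h1 h2
    simp only [Finset.mem_insert, Finset.mem_singleton] at hu hv hw
    rcases hu with rfl | rfl | rfl <;> rcases hv with rfl | rfl | rfl <;>
      rcases hw with rfl | rfl | rfl <;>
      first
        | exact absurd rfl huv
        | exact absurd rfl h1
        | exact absurd rfl h2
        | exact c7_9 p hp
        | exact c7_10 p hp
        | exact c9_7 p hp
        | exact c9_10 p hp
        | exact c10_7 p hp
        | exact c10_9 p hp)
  exact absurd h1 (by decide)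

end Pool.Agent.Results.MP_da5e02_co.Counterexample
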